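import Pool.Agent.H.MP_0d5181_co.C

namespace Pool.Agent.Results.MP_0d5181_co.Yes

open Finset Pool.Agent.H.MP_0d5181_co

/-- The size of a fractional dilate. -/
noncomputable def size (γ : ℤ → ℝ) : ℝ := ⨅ p : Set.Ioo (0 : ℝ) 1, ∑ᶠ n, γ n ^ (p : ℝ)

/-- The fractional dilate `α + k • α`. -/
noncomputable def dil (α : ℤ →₀ ℝ) (k : ℤ) (n : ℤ) : ℝ :=
  ∑ r ∈ (α.support ×ˢ α.support).filter (fun r => r.1 + k * r.2 = n), α r.1 * α r.2

theorem size_eq (γ : ℤ → ℝ) (T : Finset ℤ) (hγ : ∀ z ∈ T, 0 < γ z) (hz : ∀ z ∉ T, γ z = 0) {p : ℝ}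
    (h0 : 0 ≤ p) (h1 : p ≤ 1) (h : ∀ q : ℝ, 0 ≤ q → q ≤ 1 → ∑ z ∈ T, γ z ^ p ≤ ∑ z ∈ T, γ z ^ q) :
    size γ = ∑ z ∈ T, γ z ^ p := by
  rw [← inf_eq T γ hγ h0 h1 h, size]
  congr 1
  funext q
  refine finsum_eq_sum_of_support_subset _ fun z hz' => ?_
  by_contra e
  exact hz' (by simp only [hz z e]; exact Real.zero_rpow q.2.1.ne')

theorem gam_eq (α : ℤ →₀ ℝ) (k : ℤ) (n : ℕ) (z : Fin n → ℤ) :
    Gam (fun x : Fin n → α.support => ∏ t, α (x t))
      (fun x y t => (x t : ℤ) + k * y t) z = ∏ t, dil α k (z t) := by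
  have e : ∀ m, dil α k m = ∑ r : α.support × α.support,
      if (r.1 : ℤ) + k * r.2 = m then α r.1 * α r.2 else 0 := by
    intro m
    rw [dil, sum_filter, sum_product, Fintype.sum_prod_type, ← sum_coe_sort]
    exact sum_congr rfl fun i _ => (sum_coe_sort _ _).symm
  simp only [e]
  rw [Fintype.prod_sum, Gam, sum_filter]
  refine (Fintype.sum_equiv (Equiv.arrowProdEquivProdArrow _ _ _) _ _ fun w => ?_).symm
  rw [Fintype.prod_ite_zero, prod_mul_distrib]
  simp [funext_iff]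

theorem ratio {L l a b n d ε : ℝ} (hL : 0 < L) (h1 : L ≤ l) (h2 : l ≤ 2 * L) (hn : 0 < n)
    (hd : d ≤ L / 2) (hε : 6 * d < ε * L) (ha : |a - n * L| ≤ d * n) (hb : |b - n * l| ≤ d * n) :
    0 < a ∧ |l / L - b / a| < ε := by
  obtain ⟨a1, a2⟩ := abs_le.1 ha
  obtain ⟨b1, b2⟩ := abs_le.1 hb
  have h3 : n * L / 2 ≤ a := by nlinarith
  have h4 : 0 < a := lt_of_lt_of_le (by positivity) h3
  refine ⟨h4, ?_⟩
  have hd0 : 0 ≤ d * n := (abs_nonneg _).trans ha
  rw [div_sub_div _ _ hL.ne' h4.ne', abs_div, abs_of_pos (mul_pos hL h4), div_lt_iff₀ (mul_pos hL h4)]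
  have h5 : |l * a - L * b| ≤ 3 * L * (d * n) := by
    rw [show l * a - L * b = l * (a - n * L) - L * (b - n * l) by ring, abs_le]
    constructor <;> nlinarith
  have hε0 : 0 < ε := by
    have : 0 ≤ d := nonneg_of_mul_nonneg_left hd0 hn
    by_contra h; nlinarith
  calc _ ≤ 3 * L * (d * n) := h5
    _ < ε * L * (n * L / 2) := by nlinarith [mul_pos hL hn]
    _ ≤ ε * (L * a) := by nlinarith [mul_pos hε0 hL]

theorem log_near {x y C n c : ℝ} (hy : 0 < y) (hC : 0 < C) (h1 : y / C ≤ x) (h2 : x ≤ C * y)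
    (h3 : C ≤ Real.exp c) (hn : Real.log y = n) : |Real.log x - n| ≤ c := by
  have hx : 0 < x := lt_of_lt_of_le (by positivity) h1
  have a1 := Real.log_le_log (by positivity) h1
  have a2 := Real.log_le_log hx h2
  have a3 := Real.log_le_log hC h3
  rw [Real.log_div hy.ne' hC.ne'] at a1
  rw [Real.log_mul hC.ne' hy.ne'] at a2
  rw [Real.log_exp] at a3
  rw [abs_le]; constructor <;> linarith

theorem result (α : ℤ →₀ ℝ) (h0 : ∀ n, 0 ≤ α n) (h1 : ∀ n, α n ≤ 1) (hs : 1 < size α)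
    (N : ℕ) (ε : ℝ) (hε : 0 < ε) : ∃ S : Finset ℤ, 2 ≤ S.card ∧ ∀ k : ℤ, 1 ≤ |k| → |k| ≤ N →
      |Real.log (size (dil α k)) / Real.log (size α) -
        Real.log ((S ×ˢ S).image fun r => r.1 + k * r.2).card / Real.log S.card| < ε := by
  set D := α.support with hD
  have hpos : ∀ z ∈ D, 0 < α z := fun z hz => lt_of_le_of_ne (h0 z) (Finsupp.mem_support_iff.1 hz).symm
  set s := ∑ z ∈ D, α z with hsd
  have es : size α = s := by
    rw [size_eq α D hpos (fun z hz => Finsupp.notMem_support_iff.1 hz) zero_le_one le_rfl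
      fun q _ b => sum_le_sum fun z hz => Real.rpow_le_rpow_of_exponent_ge (hpos z hz) (h1 z) b]
    simp [hsd]
  rw [es] at hs ⊢
  have hDne : D.Nonempty := by
    by_contra h
    rw [not_nonempty_iff_eq_empty] at h
    rw [hsd, h, sum_empty] at hs; linarith
  let Z : ℤ → Finset ℤ := fun k => (D ×ˢ D).image fun r => r.1 + k * r.2
  have hZ : ∀ k, ∀ z ∈ Z k, 0 < dil α k z := by
    intro k z hz
    obtain ⟨r, hr, e⟩ := mem_image.1 hz
    exact sum_pos (fun r hr => mul_pos (hpos _ (mem_product.1 (mem_filter.1 hr).1).1)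
      (hpos _ (mem_product.1 (mem_filter.1 hr).1).2)) ⟨r, mem_filter.2 ⟨hr, e⟩⟩
  have hZ0 : ∀ k, ∀ z ∉ Z k, dil α k z = 0 := fun k z hz => sum_eq_zero fun r hr =>
    absurd (mem_image.2 ⟨r, (mem_filter.1 hr).1, (mem_filter.1 hr).2⟩) hz
  have hsum : ∀ k, ∑ z ∈ Z k, dil α k z = s ^ 2 := by
    intro k
    simp only [dil]
    rw [sum_fiberwise_of_maps_to fun r hr => mem_image_of_mem _ hr, sq, hsd, sum_mul_sum, sum_product]
  have hle : ∀ k z, dil α k z ≤ s := by
    intro k z
    calc dil α k z ≤ ∑ r ∈ (D ×ˢ D).filter (fun r => r.1 + k * r.2 = z), α r.2 :=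
          sum_le_sum fun r _ => mul_le_of_le_one_left (h0 _) (h1 _)
      _ = ∑ j ∈ ((D ×ˢ D).filter (fun r => r.1 + k * r.2 = z)).image Prod.snd, α j := by
          refine (sum_image fun r hr r' hr' e => Prod.ext ?_ e).symm
          have a := (mem_filter.1 hr).2
          have b := (mem_filter.1 hr').2
          rw [← e] at b; linarith
      _ ≤ s := sum_le_sum_of_subset_of_nonneg (fun j hj => by
          obtain ⟨r, hr, rfl⟩ := mem_image.1 hj
          exact (mem_product.1 (mem_filter.1 hr).1).2) fun j _ _ => h0 j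
  choose p p0 p1 pmin pc using fun k => opt (Z k) (dil α k) (hZ k)
  let f : ℤ → ℝ := fun k => ∑ z ∈ Z k, dil α k z ^ p k
  have ef : ∀ k, size (dil α k) = f k := fun k => size_eq _ _ (hZ k) (hZ0 k) (p0 k) (p1 k) (pmin k)
  have f1 : ∀ k, s ≤ f k := by
    intro k
    calc s = ∑ z ∈ Z k, dil α k z / s := by rw [← sum_div, hsum]; field_simp
      _ ≤ _ := sum_le_sum fun z hz => le_trans (le_min ((div_le_one (by linarith)).2 (hle k z))
          (div_le_self (hZ k z hz).le hs.le)) (min_le_rpow (hZ k z hz) (p0 k) (p1 k))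
  have f2 : ∀ k, f k ≤ s ^ 2 := fun k => by simpa [hsum] using pmin k 1 zero_le_one le_rfl
  let K := ((Icc (-(N : ℤ)) N).erase 0 : Finset ℤ)
  set m : ℕ := Fintype.card K + 1 with hm
  have hL : 0 < Real.log s := Real.log_pos hs
  set d := min (Real.log s / 2) (ε * Real.log s / 12) with hd
  have hd0 : 0 < d := by positivity
  have hm0 : (0 : ℝ) < m := by positivity
  have ev := (Filter.eventually_all.2 fun k : K => typical (Z k) ((hDne.product hDne).image _)
    (dil α k) (hZ k) (p0 k) (p1 k) (pc k) (δ := d / (16 * m)) (by positivity)).and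
    ((Filter.eventually_ge_atTop 1).and (tendsto_natCast_atTop_atTop.eventually_ge_atTop
      ((8 * (m : ℝ) ^ 3 + 1) * 1024 ^ m / (d / 2))))
  obtain ⟨n, hT, hn1, hn2⟩ := ev.exists
  have hn0 : (0 : ℝ) < n := by exact_mod_cast hn1
  set θ := Real.exp (d / (16 * m) * n) with hθ
  have hθ1 : 1 ≤ θ := Real.one_le_exp (by positivity)
  have hη : 1 ≤ 2 * θ ^ 2 := by nlinarith
  set C := (8 * (m : ℝ) ^ 3 + 1) * (64 * (2 * θ ^ 2) ^ 4) ^ m with hC
  have hC1 : C ≤ Real.exp (d * n) := by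
    have a1 : (64 * (2 * θ ^ 2) ^ 4) ^ m = 1024 ^ m * Real.exp (d * n / 2) := by
      rw [show 64 * (2 * θ ^ 2) ^ 4 = 1024 * θ ^ 8 by ring, mul_pow, ← pow_mul, hθ, ← Real.exp_nat_mul]
      congr 2; push_cast; field_simp; ring
    have a2 := Real.add_one_le_exp (d * n / 2)
    rw [div_le_iff₀ (by positivity)] at hn2
    rw [hC, a1, ← mul_assoc, show d * n = d * n / 2 + d * n / 2 by ring, Real.exp_add]
    gcongr
    · linarith
    · linarith
  have hC2 : 4 * (2 * θ ^ 2) ≤ C := by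
    have a1 : 64 * (2 * θ ^ 2) ^ 4 ≤ (64 * (2 * θ ^ 2) ^ 4) ^ m :=
      le_self_pow₀ (by nlinarith [one_le_pow₀ (n := 4) hη]) (by omega)
    have a2 : 2 * θ ^ 2 ≤ (2 * θ ^ 2) ^ 4 := le_self_pow₀ hη (by norm_num)
    have a3 : (0 : ℝ) ≤ 8 * (m : ℝ) ^ 3 * (64 * (2 * θ ^ 2) ^ 4) ^ m := by positivity
    rw [hC]; nlinarith
  have hC0 : 0 < C := by linarith
  have hp : ∑ x : Fin n → D, ∏ t, α (x t) = s ^ n := by
    rw [← Fintype.prod_sum fun (_ : Fin n) (i : D) => α i, sum_coe_sort D α]; simp [hsd]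
  have hg : ∀ (k : ℤ) (z : Fin n → ℤ), Gam (fun x : Fin n → D => ∏ t, α (x t))
      (fun x y t => (x t : ℤ) + k * y t) z = ∏ t, dil α k (z t) := fun k z => gam_eq α k n z
  obtain ⟨S, c1, c2, c3⟩ := core (K := K) (p := fun x : Fin n → D => ∏ t, α (x t))
    (fun x => ⟨prod_nonneg fun t _ => h0 _, prod_le_one (fun t _ => h0 _) fun t _ => h1 _⟩)
    (fun k x y t => (x t : ℤ) + k * y t)
    (fun k x y y' e => funext fun t => Subtype.ext
      (mul_left_cancel₀ (mem_erase.1 k.2).1 (add_left_cancel (congrFun e t))))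
    (fun k x x' y e => funext fun t => Subtype.ext (add_right_cancel (congrFun e t)))
    (by rw [hp]; exact one_le_pow₀ hs.le) (fun k => f k ^ n) hη
    (fun k => by rw [hp]; exact pow_le_pow_left₀ (by linarith) (f1 k) n)
    (fun k => by
      simp only [hg]
      calc _ ≤ ∑ z ∈ Fintype.piFinset fun _ : Fin n => Z k, min 1 (∏ t, dil α k (z t)) := by
            refine sum_le_sum_of_subset_of_nonneg (fun z hz => ?_) fun z hz _ => le_min zero_le_one
              (prod_nonneg fun t _ => (hZ k _ (Fintype.mem_piFinset.1 hz t)).le)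
            obtain ⟨r, _, rfl⟩ := mem_image.1 hz
            exact Fintype.mem_piFinset.2 fun t =>
              mem_image.2 ⟨(r.1 t, r.2 t), mem_product.2 ⟨(r.1 t).2, (r.2 t).2⟩, rfl⟩
        _ ≤ ∑ z ∈ Fintype.piFinset fun _ : Fin n => Z k, ∏ t, dil α k (z t) ^ p k := by
            refine sum_le_sum fun z hz => ?_
            have := fun t => hZ k _ (Fintype.mem_piFinset.1 hz t)
            rw [Real.finset_prod_rpow _ _ fun t _ => (this t).le]
            exact min_le_rpow (prod_pos fun t _ => this t) (p0 k) (p1 k)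
        _ = _ := by
            rw [← prod_univ_sum (fun _ : Fin n => Z k) fun _ y => dil α k y ^ p k]; simp [f])
    (fun k => by
      obtain ⟨U, a1, a2⟩ := hT k
      refine ⟨U, by simpa only [hg] using a1, a2.imp_right fun e => ?_⟩
      have : f k = s ^ 2 := by simp [f, e, hsum]
      rw [hp, this, ← pow_mul, ← pow_mul, mul_comm n 2]
      exact le_mul_of_one_le_left (by positivity) hη)
    (C := C) (by rw [hC, hm]; push_cast; rfl)
  rw [hp] at c1 c2
  let v : (Fin n → D) → Fin n → ℤ := fun x t => x t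
  obtain ⟨B, hB⟩ := exists_form (univ.image v ∪ univ.biUnion fun k : K =>
    univ.image fun r : (Fin n → D) × (Fin n → D) => fun t => (r.1 t : ℤ) + k * r.2 t)
  let φ : (Fin n → ℤ) → ℤ := fun u => ∑ t, u t * B ^ (t : ℕ)
  have e1 : (S.image fun x => φ (v x)).card = S.card := card_image_of_injOn fun x _ y _ e => by
    have := hB _ (mem_union_left _ (mem_image_of_mem v (mem_univ x))) _
      (mem_union_left _ (mem_image_of_mem v (mem_univ y))) e
    exact funext fun t => Subtype.ext (congrFun this t)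
  have a1 : |Real.log S.card - n * Real.log s| ≤ d * n :=
    log_near (by positivity) hC0 (le_trans (by gcongr; nlinarith) c1) c2 hC1 (Real.log_pow s n)
  have hd1 : d ≤ Real.log s / 2 := min_le_left _ _
  have hd2 : 6 * d < ε * Real.log s := by
    have : d ≤ ε * Real.log s / 12 := min_le_right _ _
    have : 0 < ε * Real.log s := by positivity
    linarith
  refine ⟨S.image fun x => φ (v x), ?_, fun k k1 k2 => ?_⟩
  · have := (ratio hL le_rfl (by linarith) hn0 hd1 hd2 a1 a1).1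
    rw [e1]
    by_contra h
    have h' : S.card = 0 ∨ S.card = 1 := by omega
    rcases h' with h' | h' <;> simp [h'] at this
  · have hk : k ∈ K := mem_erase.2 ⟨by rintro rfl; simp at k1, mem_Icc.2 (abs_le.1 k2)⟩
    obtain ⟨b1, b2⟩ := c3 ⟨k, hk⟩
    have e2 : ((S.image fun x => φ (v x)) ×ˢ (S.image fun x => φ (v x))).image
        (fun r => r.1 + k * r.2) =
        ((S ×ˢ S).image fun r => fun t => (r.1 t : ℤ) + k * r.2 t).image φ := by
      rw [← prodMap_image_product, image_image, image_image]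
      refine image_congr fun r _ => ?_
      simp only [Function.comp, Prod.map, φ, v, mul_sum, ← sum_add_distrib]
      exact sum_congr rfl fun t _ => by ring
    have hmem : ∀ u ∈ (S ×ˢ S).image fun r => fun t => (r.1 t : ℤ) + k * r.2 t,
        u ∈ univ.image v ∪ univ.biUnion fun k : K =>
        univ.image fun r : (Fin n → D) × (Fin n → D) => fun t => (r.1 t : ℤ) + k * r.2 t :=
      fun u hu => mem_union_right _ (mem_biUnion.2 ⟨⟨k, hk⟩, mem_univ _,
        image_subset_image (subset_univ _) hu⟩)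
    rw [e1, e2, card_image_of_injOn fun u hu w hw e => hB u (hmem u hu) w (hmem w hw) e, ef]
    have hf0 : 0 < f k := by linarith [f1 k]
    refine (ratio hL (Real.log_le_log (by linarith) (f1 k)) ?_ hn0 hd1 hd2 a1
      (log_near (by positivity) hC0 (le_trans (by gcongr) b1) b2 hC1 (Real.log_pow _ n))).2
    have := Real.log_le_log hf0 (f2 k)
    rwa [Real.log_pow] at this

end Pool.Agent.Results.MP_0d5181_co.Yes
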